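import Pool.Agent.Q172.FTO.Def
import Pool.Agent.Q172.JonesC.Tools

/-!
# Job 5 of project FTO: three continua meeting in one point
-/

set_option autoImplicit false

open Set Topology

namespace Pool.Agent.Q176.FTO

open Pool.Agent.Q172.FTO

/-- closed sets have closed components -/
theorem closed_comp {Y : Type} [TopologicalSpace Y] {S : Set Y} (hS : IsClosed S) (x : Y) :
    IsClosed (connectedComponentIn S x) := by
  by_cases hx : x ∈ S
  · rw [← closure_subset_iff_isClosed]
    refine IsPreconnected.subset_connectedComponentIn (isPreconnected_connectedComponentIn.closure)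
      (subset_closure (mem_connectedComponentIn hx)) ?_
    exact closure_minimal (connectedComponentIn_subset _ _) hS
  · rw [connectedComponentIn_eq_empty hx]
    exact isClosed_empty

theorem job5 : S_R := by
  intro Y _ _ _ F B hF hB hd hne
  choose b hb using fun i => (hB i).2.1
  have h1 : ∀ i, (connectedComponentIn (closure (B i)) (b i) ∩ F).Nonempty := by
    intro i
    have h2 := Q172.JonesC.bump (K := (univ : Set Y)) (O := B i) isClosed_univ
      isPreconnected_univ (y := b i) ⟨mem_univ _, subset_closure (hb i)⟩ (by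
        intro h3
        obtain ⟨f, hf⟩ := hne
        exact disjoint_left.mp (hB i).2.2.1 (h3 (mem_univ f)) hf) (hB i).1
    rw [univ_inter] at h2
    obtain ⟨z, hz1, hz2⟩ := h2
    refine ⟨z, hz1, ?_⟩
    rw [(hB i).1.frontier_eq] at hz2
    exact ((hB i).2.2.2 hz2.1).resolve_left hz2.2
  choose y hy using h1
  obtain ⟨y₀, hy₀F, hinf⟩ : ∃ y₀ ∈ F, {i | y i = y₀}.Infinite := by
    by_contra hcon
    push Not at hcon
    have h2 : (univ : Set ℕ) ⊆ ⋃ z ∈ F, {i | y i = z} := by
      intro i _
      exact mem_biUnion (hy i).2 rfl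
    have h3 : (univ : Set ℕ).Finite := by
      refine (Set.Finite.biUnion hF fun z hz => ?_).subset h2
      exact hcon z hz
    exact infinite_univ h3
  refine ⟨y₀, hy₀F, fun U hU => ?_⟩
  let e : ℕ → ℕ := Nat.nth fun i => y i = y₀
  have he : ∀ k, y (e k) = y₀ := fun k => Nat.nth_mem_of_infinite hinf k
  have hinj : Function.Injective e := Nat.nth_injective hinf
  have hyb : ∀ i, y₀ ≠ b i := by
    rintro i rfl
    exact disjoint_left.mp (hB i).2.2.1 (hb i) hy₀F
  have hnb : U ∩ (F \ {y₀})ᶜ ∩ ⋂ k : Fin 3, {b (e k)}ᶜ ∈ 𝓝 y₀ := by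
    refine Filter.inter_mem (Filter.inter_mem hU ?_) ?_
    · exact (hF.subset sdiff_subset).isClosed.isOpen_compl.mem_nhds fun h => h.2 rfl
    · rw [Filter.iInter_mem]
      exact fun k => isOpen_compl_singleton.mem_nhds (hyb _)
  obtain ⟨ε, hε, hball⟩ := Metric.nhds_basis_closedBall.mem_iff.mp hnb
  have hcb : closure (Metric.ball y₀ ε) ⊆ Metric.closedBall y₀ ε := Metric.closure_ball_subset_closedBall
  let M : ℕ → Set Y := fun i => connectedComponentIn (closure (B i)) (b i)
  have hM : ∀ i, IsClosed (M i) := fun i => closed_comp isClosed_closure _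
  have hMb : ∀ i, b i ∈ M i := fun i => mem_connectedComponentIn (subset_closure (hb i))
  have hMs : ∀ i, M i ⊆ B i ∪ F := fun i => (connectedComponentIn_subset _ _).trans (hB i).2.2.2
  have hMy : ∀ k, y₀ ∈ M (e k) := fun k => by
    rw [← he k]
    exact (hy (e k)).1
  refine ⟨fun k => connectedComponentIn (M (e k) ∩ closure (Metric.ball y₀ ε)) y₀, fun k => ?_,
    fun i j hij z hz => ?_⟩
  · have hmem : y₀ ∈ M (e k) ∩ closure (Metric.ball y₀ ε) :=
      ⟨hMy k, subset_closure (Metric.mem_ball_self hε)⟩
    have hcl := closed_comp ((hM (e k)).inter (isClosed_closure (s := Metric.ball y₀ ε))) y₀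
    have hbm := Q172.JonesC.bump (hM (e k)) isPreconnected_connectedComponentIn hmem
      (by
        intro h3
        have h4 := hball (Metric.ball_subset_closedBall (h3 (hMb (e k))))
        exact mem_iInter.mp h4.2 k rfl) Metric.isOpen_ball
    refine ⟨hcl.isCompact, isPreconnected_connectedComponentIn, mem_connectedComponentIn hmem,
      ?_, ?_⟩
    · obtain ⟨z, hz1, hz2⟩ := hbm
      refine ⟨y₀, mem_connectedComponentIn hmem, z, hz1, ?_⟩
      rintro rfl
      rw [Metric.isOpen_ball.frontier_eq] at hz2
      exact hz2.2 (Metric.mem_ball_self hε)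
    · intro z hz
      exact (hball (hcb (connectedComponentIn_subset _ _ hz).2)).1.1
  · have hz1 := connectedComponentIn_subset _ _ hz.1
    have hz2 := connectedComponentIn_subset _ _ hz.2
    have hij' : e i ≠ e j := fun h => hij (Fin.ext (hinj h))
    have hzF : z ∈ F := by
      rcases hMs _ hz1.1 with h3 | h3
      · rcases hMs _ hz2.1 with h4 | h4
        · exact absurd h4 (disjoint_left.mp (hd _ _ hij') h3)
        · exact h4
      · exact h3
    by_contra hne'
    exact (hball (hcb hz1.2)).1.2 ⟨hzF, hne'⟩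

end Pool.Agent.Q176.FTO
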